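import Pool.Agent.Helper96.AW.GoalsA
import Pool.Agent.Helper26.AL.All

/-!
Project AW (MP_af6c86_pr), packet TE: the largest tree in a block.
-/

set_option autoImplicit false

namespace Pool.Agent.Helper41.AW.TE

open Finset Pool.Agent.Helper26.AF Pool.Agent.Helper26.AL Pool.Agent.Helper96.AW

open Pool.Agent.Helper45.AL (comp_gi comp_clo comp_reach comp_ne eIn_gi ne_gi ne_eq_eIn emb_mem
  reach_gi)

/-- the condition of `XL` -/
def PL {m : ℕ} (L : ℕ) (G : SimpleGraph (Fin m)) : Prop :=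
  ∀ Q : Finset (Fin m), IsComp G Q → eIn G Q ≤ #Q ∧ (eIn G Q < #Q → #Q < L)

open Classical in
lemma XL_eq (u : ℝ) (L m : ℕ) :
    XL u L m = ∑ G : SimpleGraph (Fin m), if PL L G then u ^ ne G else 0 := by
  unfold XL PL
  congr!

lemma XL_nonneg (u : ℝ) (hu : 0 ≤ u) (L m : ℕ) : 0 ≤ XL u L m := by
  classical
  rw [XL_eq]
  refine sum_nonneg fun G _ => ?_
  split_ifs
  · positivity
  · exact le_refl _

/-- a component induces a connected graph -/
lemma conn_gi {n : ℕ} {G : SimpleGraph (Fin n)} {Q : Finset (Fin n)} (h : IsComp G Q) :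
    (gi G Q).Connected := by
  have hQ := comp_clo h
  obtain ⟨x, hx⟩ := comp_ne h
  obtain ⟨i, hi⟩ := Pool.Agent.Helper45.AL.emb_surj Q hx
  have : Nonempty (Fin #Q) := ⟨i⟩
  refine ⟨fun a b => ?_⟩
  rw [reach_gi G Q hQ]
  exact (comp_reach h (emb_mem Q a) _).mp (emb_mem Q b)

/-- the edges split over a closed set and its complement -/
lemma eIn_compl {n : ℕ} {G : SimpleGraph (Fin n)} {U : Finset (Fin n)} (hU : Clo G U) :
    eIn G U + eIn G Uᶜ = ne G := by
  classical
  have h1 : ∀ Q : Finset (Fin n), eIn G Q =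
      #(univ.filter fun e : Sym2 (Fin n) => e ∈ G.edgeSet ∧ ∀ v ∈ e, v ∈ Q) := by
    intro Q
    unfold eIn
    rw [Nat.card_eq_fintype_card, Fintype.card_subtype]
  rw [ne_eq_eIn, h1, h1, h1, ← card_union_of_disjoint]
  · congr 1
    ext e
    simp only [mem_filter, mem_univ, true_and, mem_union]
    induction e using Sym2.ind with
    | _ a b =>
      simp only [SimpleGraph.mem_edgeSet, Sym2.mem_iff, forall_eq_or_imp, forall_eq, mem_compl]
      constructor
      · rintro (⟨h, _⟩ | ⟨h, _⟩)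
        · exact ⟨h, trivial, trivial⟩
        · exact ⟨h, trivial, trivial⟩
      · rintro ⟨h, _⟩
        by_cases ha : a ∈ U
        · exact Or.inl ⟨h, ha, hU a b h ha⟩
        · exact Or.inr ⟨h, ha, fun hb => ha (hU b a h.symm hb)⟩
  · rw [disjoint_left]
    intro e he he'
    rw [mem_filter] at he he'
    induction e using Sym2.ind with
    | _ a b =>
      exact (mem_compl.mp (he'.2.2 a (by simp))) (he.2.2 a (by simp))

open Classical in
/-- the weight -/
noncomputable def w (u : ℝ) (K : ℕ) (j i : ℕ) (H₁ : SimpleGraph (Fin j)) (H₂ : SimpleGraph (Fin i)) :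
    ℝ :=
  if (K ≤ j ∧ j < 2 * K) ∧ (H₁.Connected ∧ ne H₁ + 1 = j) ∧ PL (2 * K) H₂ then
    u ^ (ne H₁ + ne H₂) else 0

lemma w_nonneg (u : ℝ) (hu : 0 ≤ u) (K j i : ℕ) (H₁ : SimpleGraph (Fin j))
    (H₂ : SimpleGraph (Fin i)) : 0 ≤ w u K j i H₁ H₂ := by
  unfold w
  split_ifs
  · positivity
  · exact le_refl _

lemma clo_compl {n : ℕ} {G : SimpleGraph (Fin n)} {U : Finset (Fin n)} (h : Clo G U) :
    Clo G Uᶜ := by
  intro x y hxy hx
  rw [Finset.mem_compl] at hx ⊢
  intro hy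
  exact hx (h y x hxy.symm hy)

open Classical in
lemma ptw (u : ℝ) (hu : 0 ≤ u) (K n : ℕ) (G : SimpleGraph (Fin n)) :
    (if PL (2 * K) G then u ^ ne G else 0) ≤ (if PL K G then u ^ ne G else 0) +
      ∑ U : Finset (Fin n), if Clo G U then w u K #U #Uᶜ (gi G U) (gi G Uᶜ) else 0 := by
  have h0 : ∀ U : Finset (Fin n), 0 ≤ if Clo G U then w u K #U #Uᶜ (gi G U) (gi G Uᶜ) else 0 := by
    intro U
    split_ifs
    · exact w_nonneg u hu _ _ _ _ _
    · exact le_refl _
  have hs := sum_nonneg fun (U : Finset (Fin n)) (_ : U ∈ univ) => h0 U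
  have hp : 0 ≤ u ^ ne G := by positivity
  by_cases h2 : PL (2 * K) G
  · rw [if_pos h2]
    by_cases h1 : PL K G
    · rw [if_pos h1]
      linarith
    · rw [if_neg h1, zero_add]
      unfold PL at h1
      push Not at h1
      obtain ⟨Q, hQ, h3⟩ := h1
      have h4 := h2 Q hQ
      obtain ⟨h5, h6⟩ := h3 h4.1
      have h7 := h4.2 h5
      have hc := conn_gi hQ
      have hcl := comp_clo hQ
      have hcard : #Q ≤ ne (gi G Q) + 1 := by
        have := hc.card_vert_le_card_edgeSet_add_one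
        rw [Nat.card_eq_fintype_card, Fintype.card_fin] at this
        exact this
      rw [ne_gi] at hcard
      have hw : w u K #Q #Qᶜ (gi G Q) (gi G Qᶜ) = u ^ ne G := by
        unfold w
        rw [if_pos, ne_gi, ne_gi, eIn_compl hcl]
        refine ⟨⟨h6, h7⟩, ⟨hc, by rw [ne_gi]; omega⟩, ?_⟩
        intro Q' hQ'
        have h8 := (comp_gi G Qᶜ (clo_compl hcl) Q').mp hQ'
        have h9 := h2 _ h8
        rw [← eIn_gi, card_map] at h9
        exact h9
      have h10 := single_le_sum (f := fun U : Finset (Fin n) =>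
        if Clo G U then w u K #U #Uᶜ (gi G U) (gi G Uᶜ) else 0) (fun U _ => h0 U) (mem_univ Q)
      have h11 : (if Clo G Q then w u K #Q #Qᶜ (gi G Q) (gi G Qᶜ) else 0) = u ^ ne G := by
        rw [if_pos hcl, hw]
      calc u ^ ne G = (if Clo G Q then w u K #Q #Qᶜ (gi G Q) (gi G Qᶜ) else 0) := h11.symm
        _ ≤ _ := h10
  · rw [if_neg h2]
    refine add_nonneg ?_ hs
    split_ifs
    · exact hp
    · exact le_refl _

open Classical in
lemma inner (u : ℝ) (K j i : ℕ) (h : K ≤ j ∧ j < 2 * K) :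
    ∑ H₁ : SimpleGraph (Fin j), ∑ H₂ : SimpleGraph (Fin i), w u K j i H₁ H₂ =
      ((trk j : ℝ) * u ^ (j - 1)) * XL u (2 * K) i := by
  have e1 : ((trk j : ℝ) * u ^ (j - 1)) =
      ∑ H₁ : SimpleGraph (Fin j), if H₁.Connected ∧ ne H₁ + 1 = j then u ^ ne H₁ else 0 := by
    have e2 : ∀ H₁ : SimpleGraph (Fin j), (if H₁.Connected ∧ ne H₁ + 1 = j then u ^ ne H₁ else 0) =
        (if H₁.Connected ∧ ne H₁ + 1 = j then (1 : ℝ) else 0) * u ^ (j - 1) := by
      intro H
      split_ifs with hH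
      · rw [one_mul]
        congr 1
        omega
      · rw [zero_mul]
    rw [sum_congr rfl fun H _ => e2 H, ← sum_mul, sum_boole]
    congr 1
    unfold trk
    rw [Nat.card_eq_fintype_card, Fintype.card_subtype]
  rw [e1, XL_eq, sum_mul_sum]
  refine sum_congr rfl fun H₁ _ => sum_congr rfl fun H₂ _ => ?_
  unfold w
  by_cases h1 : H₁.Connected ∧ ne H₁ + 1 = j
  · by_cases h2 : PL (2 * K) H₂
    · rw [if_pos ⟨h, h1, h2⟩, if_pos h1, if_pos h2, pow_add]
    · rw [if_neg (fun hh => h2 hh.2.2), if_neg h2, mul_zero]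
  · rw [if_neg (fun hh => h1 hh.2.1), if_neg h1, zero_mul]

lemma inner' (u : ℝ) (K j i : ℕ) (h : ¬ (K ≤ j ∧ j < 2 * K)) :
    ∑ H₁ : SimpleGraph (Fin j), ∑ H₂ : SimpleGraph (Fin i), w u K j i H₁ H₂ = 0 := by
  refine sum_eq_zero fun H₁ _ => sum_eq_zero fun H₂ _ => ?_
  unfold w
  rw [if_neg (fun hh => h hh.1)]

/-- **TE.** -/
theorem t : Pool.Agent.Helper96.AW.S_TE := by
  classical
  intro u K n hu hK
  have h1 : XL u (2 * K) n ≤ XL u K n + ∑ G : SimpleGraph (Fin n), ∑ U : Finset (Fin n),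
      open Classical in if Clo G U then w u K #U #Uᶜ (gi G U) (gi G Uᶜ) else 0 := by
    rw [XL_eq, XL_eq, ← sum_add_distrib]
    exact sum_le_sum fun G _ => ptw u hu K n G
  refine h1.trans (add_le_add (le_refl _) ?_)
  have h2 := okBIJ n (w u K)
  refine (le_of_eq h2).trans ?_
  have h3 : ∀ j ∈ range (n + 1), (n.choose j : ℝ) * ∑ H₁ : SimpleGraph (Fin j),
      ∑ H₂ : SimpleGraph (Fin (n - j)), w u K j (n - j) H₁ H₂ =
      if j ∈ Ico K (2 * K) then (n.choose j : ℝ) * ((trk j : ℝ) * u ^ (j - 1)) *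
        XL u (2 * K) (n - j) else 0 := by
    intro j _
    by_cases h : K ≤ j ∧ j < 2 * K
    · rw [if_pos (mem_Ico.mpr h), inner u K j (n - j) h]
      ring
    · rw [if_neg (fun hh => h (mem_Ico.mp hh)), inner' u K j (n - j) h, mul_zero]
  rw [sum_congr rfl h3, ← sum_filter]
  refine sum_le_sum_of_subset_of_nonneg ?_ ?_
  · intro j hj
    exact (mem_filter.mp hj).2
  · intro j _ _
    have := XL_nonneg u hu (2 * K) (n - j)
    positivity

end Pool.Agent.Helper41.AW.TE
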